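import Pool.Agent.Tdc637.Final

/-!
# Generating-set independence of the degree of twisted commutativity
-/

namespace Pool.Agent.Results.MP_d54b08_al.TdcIndependent

open Pool.Agent.Tdc637

/-- Full positive answer to Q1: for a finitely generated virtually abelian group the degree of
twisted commutativity does not depend on the finite generating set. -/
theorem result {G : Type*} [Group G]
    (hG : ∃ H : Subgroup G, H.FiniteIndex ∧ ∀ a ∈ H, ∀ b ∈ H, a * b = b * a)
    (φ : G →* G) (X Y : Finset G) (hX : Subgroup.closure (X : Set G) = ⊤)
    (hY : Subgroup.closure (Y : Set G) = ⊤) :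
    tdc X φ = tdc Y φ := by
  rw [tdc_eq_infTdc hG X hX φ, tdc_eq_infTdc hG Y hY φ]

end Pool.Agent.Results.MP_d54b08_al.TdcIndependent
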